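import Pool.Agent.Helper74.LineArr.Few

/-!
# Multiplicity vectors of line arrangements with `m` multiple points: a finite description

For every `m` there is a finite list of pairs `(n₀, r₀)` such that the vectors with exactly `m`
vertices of multiplicity at least three, of multiplicities `r 1, ..., r m`, are exactly those
with `r ≥ r₀` and `n - ∑ r ≥ n₀ - ∑ r₀` for some pair of the list.
-/

namespace Pool.Agent.Results.MP_09693b_co.FiniteBasis

open Pool.Agent.Helper74.LineArr

/-- A marked form of realizability. -/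
def HasPts (n m : ℕ) (r : Fin m → ℕ) : Prop :=
  ∃ A : Finset PP, A.card = n ∧ (∀ p : PP, ∃ l ∈ A, ¬ p.orthogonal l) ∧
    ∃ pts : Fin m → PP, Function.Injective pts ∧ (∀ i, mult A (pts i) = r i) ∧
      ∀ q, (∀ i, q ≠ pts i) → mult A q ≤ 2

lemma hasPts_iff {n m : ℕ} (r : Fin m → ℕ) (hr : ∀ i, r i ∈ Finset.Icc 3 (n - 1)) :
    HasPts n m r ↔ ∃ v : ℕ → ℕ, Realizable n v ∧
      ∀ k ∈ Finset.Icc 3 (n - 1), v k = (Finset.univ.filter (fun i => r i = k)).card := by
  classical
  constructor
  · rintro ⟨A, hA, hc, pts, hinj, h1, h2⟩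
    refine ⟨vnum A, ⟨A, hA, hc, fun k _ _ => rfl⟩, ?_⟩
    intro k hk
    rw [Finset.mem_Icc] at hk
    exact vnum_of_pts A pts hinj r h1 h2 hk.1
  · rintro ⟨v, ⟨A, hA, hc, hv⟩, hr'⟩
    -- fibres have the same size
    have hfib : ∀ k, Fintype.card {i : Fin m // r i = k}
        = Fintype.card {p : {p // p ∈ multi A} // mult A p.1 = k} := by
      intro k
      have e1 : Fintype.card {p : {p // p ∈ multi A} // mult A p.1 = k}
          = ((multi A).filter (fun p => mult A p = k)).card := by
        rw [Fintype.card_subtype]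
        rw [← Finset.card_image_of_injective _ Subtype.val_injective]
        congr 1
        ext q
        simp only [Finset.mem_image, Finset.mem_filter, Finset.mem_univ, true_and,
          Subtype.exists, exists_and_right, exists_eq_right]
        constructor
        · rintro ⟨a, b⟩
          exact ⟨a, b⟩
        · rintro ⟨a, b⟩
          exact ⟨a, b⟩
      rw [e1, Fintype.card_subtype]
      by_cases hk : k ∈ Finset.Icc 3 (n - 1)
      · rw [← hr' k hk]
        rw [Finset.mem_Icc] at hk
        rw [← hv k (by omega) hk.2, vnum_eq_card A (by omega : 2 ≤ k)]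
        congr 1
        ext q
        simp only [Finset.mem_filter, mem_multi, mem_verts]
        omega
      · have z1 : Finset.univ.filter (fun i => r i = k) = ∅ := by
          rw [Finset.filter_eq_empty_iff]
          intro i _ hi
          apply hk
          rw [← hi]
          exact hr i
        have z2 : (multi A).filter (fun p => mult A p = k) = ∅ := by
          rw [Finset.filter_eq_empty_iff]
          intro p hp hpk
          apply hk
          rw [← hpk, Finset.mem_Icc]
          have := mult_lt_card hc p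
          exact ⟨mem_multi.mp hp, by omega⟩
        rw [z1, z2, Finset.card_empty, Finset.card_empty]
    let e : Fin m ≃ {p // p ∈ multi A} :=
      (Equiv.sigmaFiberEquiv r).symm.trans
        ((Equiv.sigmaCongrRight (fun k => Fintype.equivOfCardEq (hfib k))).trans
          (Equiv.sigmaFiberEquiv (fun p : {p // p ∈ multi A} => mult A p.1)))
    have he : ∀ i, mult A (e i).1 = r i := by
      intro i
      exact (Fintype.equivOfCardEq (hfib (r i)) ⟨i, rfl⟩).2
    refine ⟨A, hA, hc, fun i => (e i).1, Subtype.val_injective.comp e.injective, he, ?_⟩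
    intro q hq
    by_contra hcon
    have hqm : q ∈ multi A := mem_multi.mpr (by omega)
    apply hq (e.symm ⟨q, hqm⟩)
    change q = (e (e.symm ⟨q, hqm⟩)).1
    rw [Equiv.apply_symm_apply]

/-- Adding lines. -/
lemma hasPts_mono {n m n' : ℕ} {r r' : Fin m → ℕ} (h : HasPts n m r) (hr : ∀ i, r i ≤ r' i)
    (hn : n + ∑ i, r' i ≤ n' + ∑ i, r i) (h3 : 3 ≤ n) : HasPts n' m r' := by
  classical
  obtain ⟨A, hA, hc, pts, hinj, h1, h2⟩ := h
  obtain ⟨A', g1, g2, g3⟩ := raise pts hinj r' A (fun i => by rw [h1]; exact hr i)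
  simp only [h1] at g1
  rw [hA] at g1
  obtain ⟨A'', k1, k2, k3⟩ := add_generic A' (Finset.univ.image pts) (n' - A'.card)
  have hcard : A''.card = n' := by omega
  have e1 : ∀ i, mult A'' (pts i) = r' i := by
    intro i
    rw [k2 _ (Finset.mem_image_of_mem _ (Finset.mem_univ i)), g2]
  have e2 : ∀ q, (∀ i, q ≠ pts i) → mult A'' q ≤ 2 := by
    intro q hq
    have h0 := h2 q hq
    rcases k3 q with h | h
    · rw [h]
      rcases g3 q hq with h' | h'
      · omega
      · exact h'
    · exact h
  refine ⟨A'', hcard, ?_, pts, hinj, e1, e2⟩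
  apply no_common_of_mult_lt
  intro p
  have hsum : ∑ i, r i ≤ ∑ i, r' i := Finset.sum_le_sum (fun i _ => hr i)
  rw [hcard]
  by_cases hp : ∃ i, p = pts i
  · obtain ⟨i, rfl⟩ := hp
    rw [e1]
    have h4 := mult_lt_card hc (pts i)
    rw [h1, hA] at h4
    have h5 : r' i + ∑ j, r j ≤ r i + ∑ j, r' j := by
      rw [← Finset.add_sum_erase _ r (Finset.mem_univ i),
        ← Finset.add_sum_erase _ r' (Finset.mem_univ i)]
      have : ∑ j ∈ Finset.univ.erase i, r j ≤ ∑ j ∈ Finset.univ.erase i, r' j :=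
        Finset.sum_le_sum (fun j _ => hr j)
      omega
    omega
  · push Not at hp
    have := e2 p hp
    omega

theorem result (m : ℕ) : ∃ F : Finset (ℕ × (Fin m → ℕ)), ∀ n : ℕ, 3 ≤ n → ∀ r : Fin m → ℕ,
    (∀ i, r i ∈ Finset.Icc 3 (n - 1)) →
      ((∃ v : ℕ → ℕ, Realizable n v ∧
          ∀ k ∈ Finset.Icc 3 (n - 1), v k = (Finset.univ.filter (fun i => r i = k)).card) ↔
        ∃ x ∈ F, (∀ i, x.2 i ≤ r i) ∧ x.1 + ∑ i, r i ≤ n + ∑ i, x.2 i) := by
  classical
  -- the set of excess/multiplicity pairs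
  let P : ℕ × (Fin m → ℕ) → Prop := fun y =>
    ∃ n, 3 ≤ n ∧ HasPts n m y.2 ∧ y.1 + ∑ i, y.2 i = n + m.choose 2
  have hfin : {y | Minimal P y}.Finite :=
    WellQuasiOrderedLE.finite_of_isAntichain (setOfPred_minimal_antichain P)
  -- turn a pair into `(n₀, r₀)`
  let g : ℕ × (Fin m → ℕ) → ℕ × (Fin m → ℕ) := fun y => (y.1 + ∑ i, y.2 i - m.choose 2, y.2)
  refine ⟨hfin.toFinset.image g, ?_⟩
  intro n hn r hr
  rw [← hasPts_iff r hr]
  constructor
  · intro h
    have hle : ∑ i, r i ≤ n + m.choose 2 := by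
      obtain ⟨A, hA, hc, pts, hinj, h1, h2⟩ := h
      have h3 := sum_mult_le A (Finset.univ.image pts)
      rw [Finset.sum_image (fun _ _ _ _ h => hinj h),
        Finset.card_image_of_injective _ hinj, hA] at h3
      simpa [h1] using h3
    have hP : P (n + m.choose 2 - ∑ i, r i, r) := ⟨n, hn, h, by simp only; omega⟩
    obtain ⟨y, hy1, hy2⟩ := exists_minimal_le_of_wellFoundedLT P _ hP
    obtain ⟨n₀, h3, h4, h5⟩ := hy2.prop
    obtain ⟨hle1, hle2⟩ := Prod.le_def.mp hy1
    simp only at hle1 hle2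
    refine ⟨g y, Finset.mem_image_of_mem _ (by simpa using hy2), fun i => hle2 i, ?_⟩
    simp only [g]
    omega
  · rintro ⟨x, hx, hx1, hx2⟩
    obtain ⟨y, hy, rfl⟩ := Finset.mem_image.mp hx
    have hy' : Minimal P y := by simpa using hy
    obtain ⟨n₀, h3, h4, h5⟩ := hy'.prop
    simp only [g] at hx1 hx2
    exact hasPts_mono h4 hx1 (by omega) h3

end Pool.Agent.Results.MP_09693b_co.FiniteBasis
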